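import Pool.Agent.H23.GC.Targets

/-!
# GC module X: pairs with many defects
-/

set_option autoImplicit false

open Finset Pool.Agent.H23.GW Pool.Agent.H23.GC
open scoped Classical Nat

namespace Pool.Agent.H67.GC

variable {ι : Type} [Fintype ι]

omit [Fintype ι] in
theorem vs_elim {α β : Type} [Fintype α] [Fintype β] (w : α → ι × Bool) (u : β → ι × Bool) :
    vs (Sum.elim w u) = vs w + vs u := by
  simp only [vs]
  rw [Fintype.sum_sum_type]
  rfl

theorem nrm_neg (c : ι → ℤ) : nrm (-c) = nrm c := by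
  simp [nrm]

theorem ell_neg (c : ι → ℤ) : ell (-c) = ell c := by
  simp [ell]

theorem x (hL : T_L) (hW : T_W) (hZ : T_Z) (hC : T_C) (hV : T_V) : T_X := by
  intro s hs
  obtain ⟨t, rfl⟩ : ∃ t, s = t + 3 := ⟨s - 3, by omega⟩
  obtain ⟨CZ, hZ⟩ := hZ (t + 3) hs
  obtain ⟨C1, hC1⟩ := hC.2.2 (t + 3 + 1) (t + 3 - 1)
  refine ⟨2 * |CZ| + |C1|, ?_⟩
  intro ι _ G _ _ ev hPC hodd hm
  set M : ℝ := (Fintype.card ι : ℝ) ^ (t + 3 - 1) with hM
  have hM0 : 0 ≤ M := by positivity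
  have hLl := hL ι G (t + 3) ev hPC
  have hV' : ∀ (k : ℕ) (c : ι → ℤ), c ∈ Vn ι k ↔ nrm c = k := fun k c => hV ι k c
  constructor
  · -- words of length `2 s + 1`
    have hZ1 := (hZ ι G ev hPC hodd hm (Fin (t + 3 + 1) ⊕ Fin (t + 3))).2
      (by simp only [Fintype.card_sum, Fintype.card_fin]; omega)
      (Sum.inl ⟨0, by omega⟩) (Sum.inl ⟨1, by omega⟩) (Sum.inr ⟨0, by omega⟩)
      (Sum.inr ⟨1, by omega⟩) (by simp)
    have hsub : {q ∈ Vn ι (t + 3) ×ˢ Vn ι (t + 3 + 1) | ev q.1 = ev q.2 ∧ ell q.1 < t + 3 ∧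
        ell q.2 ≤ t + 3} ⊆ ({z ∈ Zr ev (Fin (t + 3 + 1) ⊕ Fin (t + 3)) |
          z (Sum.inl ⟨0, by omega⟩) = z (Sum.inl ⟨1, by omega⟩) ∧
          z (Sum.inr ⟨0, by omega⟩) = z (Sum.inr ⟨1, by omega⟩)} :
            Finset (Fin (t + 3 + 1) ⊕ Fin (t + 3) → ι × Bool)).image
          (fun z => (-(vs fun k => z (Sum.inr k)), vs fun k => z (Sum.inl k))) := by
      rintro ⟨d, c⟩ hq
      simp only [mem_filter, mem_product, hV'] at hq
      obtain ⟨⟨hd, hc⟩, hev, hld, hlc⟩ := hq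
      obtain ⟨w, hw, hw01⟩ := ((hW ι (Fin (t + 3 + 1))).2 c (by simpa using hc)).2.2.2.2.2.1
        ⟨0, by omega⟩ ⟨1, by omega⟩ (by simp) (by simpa using hlc)
      obtain ⟨u, hu, hu01⟩ := ((hW ι (Fin (t + 3))).2 (-d) (by simpa [nrm_neg] using hd)).2.2.2.2.2.1
        ⟨0, by omega⟩ ⟨1, by omega⟩ (by simp) (by rw [ell_neg, Fintype.card_fin]; omega)
      rw [mem_image]
      refine ⟨Sum.elim w u, ?_, ?_⟩
      · simp only [mem_filter, Zr, mem_univ, true_and, Sum.elim_inl, Sum.elim_inr]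
        refine ⟨⟨?_, ?_⟩, hw01, hu01⟩
        · rw [vs_elim, hw, hu, ← sub_eq_add_neg]
          have hne : c ≠ d := by
            rintro rfl
            omega
          obtain ⟨h1, h2, -⟩ := hLl.2 c d hne hev.symm
          simp only [Fintype.card_sum, Fintype.card_fin]
          omega
        · rw [vs_elim, hw, hu, map_add, map_neg, hev]
          simp
      · simp only [Sum.elim_inl, Sum.elim_inr]
        change (-(vs u), vs w) = (d, c)
        rw [hw, hu, neg_neg]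
    have h1 := (card_le_card hsub).trans card_image_le
    calc (_ : ℝ) ≤ _ := Nat.cast_le.2 h1
      _ ≤ CZ * M := hZ1
      _ ≤ (2 * |CZ| + |C1|) * M := by
        apply mul_le_mul_of_nonneg_right _ hM0
        have := le_abs_self CZ
        have := abs_nonneg CZ
        have := abs_nonneg C1
        linarith
  · -- words of length `2 s + 2`
    have hZ2 := (hZ ι G ev hPC hodd hm (Fin (t + 3 + 1) ⊕ Fin (t + 3 + 1))).1
      (by simp only [Fintype.card_sum, Fintype.card_fin]; omega)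
    have hA := (hZ2 (Sum.inl ⟨0, by omega⟩) (Sum.inl ⟨1, by omega⟩) (Sum.inr ⟨0, by omega⟩)
      (Sum.inr ⟨1, by omega⟩) (Sum.inr ⟨2, by omega⟩) (Sum.inr ⟨3, by omega⟩) (by simp)).2.1
    have hB := (hZ2 (Sum.inr ⟨0, by omega⟩) (Sum.inr ⟨1, by omega⟩) (Sum.inr ⟨2, by omega⟩)
      (Sum.inr ⟨3, by omega⟩) (Sum.inl ⟨0, by omega⟩) (Sum.inl ⟨1, by omega⟩) (by simp)).2.2
    have hC2 := hC1 ι hm
    set SA : Finset (Fin (t + 3 + 1) ⊕ Fin (t + 3 + 1) → ι × Bool) :=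
      {z ∈ Zr ev (Fin (t + 3 + 1) ⊕ Fin (t + 3 + 1)) |
        z (Sum.inl ⟨0, by omega⟩) = z (Sum.inl ⟨1, by omega⟩) ∧
        z (Sum.inr ⟨0, by omega⟩) = z (Sum.inr ⟨1, by omega⟩) ∧
        z (Sum.inr ⟨2, by omega⟩) = z (Sum.inr ⟨3, by omega⟩)} with hSA
    set SB : Finset (Fin (t + 3 + 1) ⊕ Fin (t + 3 + 1) → ι × Bool) :=
      {z ∈ Zr ev (Fin (t + 3 + 1) ⊕ Fin (t + 3 + 1)) |
        z (Sum.inr ⟨0, by omega⟩) = z (Sum.inr ⟨1, by omega⟩) ∧
        z (Sum.inr ⟨1, by omega⟩) = z (Sum.inr ⟨2, by omega⟩) ∧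
        z (Sum.inl ⟨0, by omega⟩) = z (Sum.inl ⟨1, by omega⟩)} with hSB
    set g : (Fin (t + 3 + 1) ⊕ Fin (t + 3 + 1) → ι × Bool) → (ι → ℤ) × (ι → ℤ) :=
      fun z => (vs fun k => z (Sum.inl k), -(vs fun k => z (Sum.inr k))) with hg
    have hsub : {q ∈ Vn ι (t + 3 + 1) ×ˢ Vn ι (t + 3 + 1) | ev q.1 = ev q.2 ∧ ell q.1 ≤ t + 3 ∧
        ell q.2 < t + 3} ⊆ (({c ∈ Vn ι (t + 3 + 1) | ell c ≤ t + 3 - 1}).image fun c => (c, c)) ∪
          (SA.image g ∪ SB.image g) := by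
      rintro ⟨c, d⟩ hq
      simp only [mem_filter, mem_product, hV'] at hq
      obtain ⟨⟨hc, hd⟩, hev, hlc, hld⟩ := hq
      by_cases hcd : c = d
      · apply mem_union_left
        rw [mem_image]
        refine ⟨c, ?_, by rw [hcd]⟩
        rw [mem_filter, hV']
        refine ⟨hc, ?_⟩
        rw [hcd]
        omega
      apply mem_union_right
      obtain ⟨w, hw, hw01⟩ := ((hW ι (Fin (t + 3 + 1))).2 c (by simpa using hc)).2.2.2.2.2.1
        ⟨0, by omega⟩ ⟨1, by omega⟩ (by simp) (by simpa using hlc)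
      obtain ⟨u, hu, hu0⟩ := ((hW ι (Fin (t + 3 + 1))).2 (-d)
        (by simpa [nrm_neg] using hd)).2.2.2.2.2.2
        ⟨0, by omega⟩ ⟨1, by omega⟩ ⟨2, by omega⟩ ⟨3, by omega⟩ (by simp)
        (by rw [ell_neg, Fintype.card_fin]; omega)
      have hz : Sum.elim w u ∈ Zr ev (Fin (t + 3 + 1) ⊕ Fin (t + 3 + 1)) := by
        simp only [mem_filter, Zr, mem_univ, true_and]
        refine ⟨?_, ?_⟩
        · rw [vs_elim, hw, hu, ← sub_eq_add_neg]
          obtain ⟨h1, h2, h3⟩ := hLl.2 c d hcd hev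
          rw [hc, hd] at h2 h3
          simp only [Fintype.card_sum, Fintype.card_fin]
          obtain ⟨r, hr⟩ := h3
          omega
        · rw [vs_elim, hw, hu, map_add, map_neg, hev]
          simp
      have hgz : g (Sum.elim w u) = (c, d) := by
        change (vs w, -(vs u)) = (c, d)
        rw [hw, hu, neg_neg]
      rcases hu0 with ⟨h1, h2⟩ | ⟨h1, h2⟩
      · apply mem_union_left
        rw [mem_image]
        exact ⟨Sum.elim w u, mem_filter.2 ⟨hz, hw01, h1, h2⟩, hgz⟩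
      · apply mem_union_right
        rw [mem_image]
        exact ⟨Sum.elim w u, mem_filter.2 ⟨hz, h1, h2, hw01⟩, hgz⟩
    have h1 := (card_le_card hsub).trans ((card_union_le _ _).trans (add_le_add card_image_le
      ((card_union_le _ _).trans (add_le_add card_image_le card_image_le))))
    calc (_ : ℝ) ≤ ((#{c ∈ Vn ι (t + 3 + 1) | ell c ≤ t + 3 - 1} + (#SA + #SB) : ℕ) : ℝ) :=
          Nat.cast_le.2 h1
      _ = (#{c ∈ Vn ι (t + 3 + 1) | ell c ≤ t + 3 - 1} : ℝ) + ((#SA : ℝ) + (#SB : ℝ)) := by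
          push_cast
          ring
      _ ≤ C1 * M + (CZ * M + CZ * M) := add_le_add hC2 (add_le_add hA hB)
      _ ≤ (2 * |CZ| + |C1|) * M := by
        have h2 : C1 * M ≤ |C1| * M := mul_le_mul_of_nonneg_right (le_abs_self _) hM0
        have h3 : CZ * M ≤ |CZ| * M := mul_le_mul_of_nonneg_right (le_abs_self _) hM0
        linarith

end Pool.Agent.H67.GC
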